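import Mathlib

set_option autoImplicit false

/-!
# The shift register chain

Cells `0, ..., m` hold bits.  At every step the bits move one cell to the right, the last bit is
forgotten and a fresh bit (equal to `false` with probability `q`) enters cell `0`.
-/

namespace Pool.Agent.W838.SR

open Finset

noncomputable section

/-- weight of a fresh bit -/
def w (q : ℝ) (b : Bool) : ℝ := if b then 1 - q else q

theorem w_sum (q : ℝ) : ∑ b, w q b = 1 := by simp [w]

theorem w_nonneg {q : ℝ} (h0 : 0 ≤ q) (h1 : q ≤ 1) (b : Bool) : 0 ≤ w q b := by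
  unfold w; split_ifs <;> linarith

theorem w_pos {q : ℝ} (h0 : 0 < q) (h1 : q < 1) (b : Bool) : 0 < w q b := by
  unfold w; split_ifs <;> linarith

theorem w_le_one {q : ℝ} (h0 : 0 ≤ q) (h1 : q ≤ 1) (b : Bool) : w q b ≤ 1 := by
  unfold w; split_ifs <;> linarith

/-- one step of the register -/
def P (m : ℕ) (q : ℝ) : Matrix (Fin (m + 1) → Bool) (Fin (m + 1) → Bool) ℝ :=
  fun z y => w q (y 0) * ∏ i : Fin m, (if y i.succ = z i.castSucc then 1 else 0)

/-- extension of a state to all cells -/
def ext {m : ℕ} (x : Fin (m + 1) → Bool) (j : ℕ) : Bool :=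
  if h : j < m + 1 then x ⟨j, h⟩ else false

theorem ext_val {m : ℕ} (x : Fin (m + 1) → Bool) (i : Fin (m + 1)) : ext x (i : ℕ) = x i := by
  rw [ext, dif_pos i.2]

/-- weight of the bit `b` in cell `i` after `k` steps -/
def g (q : ℝ) (X : ℕ → Bool) (k i : ℕ) (b : Bool) : ℝ :=
  if i < k then w q b else if b = X (i - k) then 1 else 0

theorem g_succ (q : ℝ) (X : ℕ → Bool) (k i : ℕ) (b : Bool) :
    g q X (k + 1) (i + 1) b = g q X k i b := by
  unfold g
  simp only [Nat.add_lt_add_iff_right, Nat.add_sub_add_right]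

theorem g_zero (q : ℝ) (X : ℕ → Bool) (k : ℕ) (b : Bool) : g q X (k + 1) 0 b = w q b := by
  simp [g]

theorem g_sum (q : ℝ) (X : ℕ → Bool) (k i : ℕ) : ∑ b, g q X k i b = 1 := by
  unfold g
  by_cases h : i < k
  · simp [h, w]
  · simp [h]

theorem g_nonneg {q : ℝ} (h0 : 0 ≤ q) (h1 : q ≤ 1) (X : ℕ → Bool) (k i : ℕ) (b : Bool) :
    0 ≤ g q X k i b := by
  unfold g
  split_ifs
  · exact w_nonneg h0 h1 b
  · norm_num
  · norm_num

theorem sum_prod {n : ℕ} (f : Fin n → Bool → ℝ) :
    ∑ z : Fin n → Bool, ∏ i, f i (z i) = ∏ i, ∑ b, f i b := by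
  rw [Finset.prod_univ_sum, Fintype.piFinset_univ]

theorem pow_apply (m : ℕ) (q : ℝ) (x : Fin (m + 1) → Bool) (k : ℕ) :
    ∀ y, (P m q ^ k) x y = ∏ i : Fin (m + 1), g q (ext x) k i (y i) := by
  induction k with
  | zero =>
    intro y
    rw [pow_zero, Matrix.one_apply]
    by_cases hxy : x = y
    · subst hxy
      rw [if_pos rfl]
      symm
      apply Finset.prod_eq_one
      intro i _
      simp only [g, Nat.not_lt_zero, if_false, Nat.sub_zero, ext_val, if_true]
    · rw [if_neg hxy]
      obtain ⟨i, hi⟩ := Function.ne_iff.mp hxy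
      symm
      apply Finset.prod_eq_zero (Finset.mem_univ i)
      have : y i ≠ x i := fun h => hi h.symm
      simp only [g, Nat.not_lt_zero, if_false, Nat.sub_zero, ext_val, this]
  | succ k ih =>
    intro y
    rw [pow_succ, Matrix.mul_apply]
    have h1 : ∀ z : Fin (m + 1) → Bool, (P m q ^ k) x z * P m q z y =
        w q (y 0) * ∏ i : Fin (m + 1), (g q (ext x) k i (z i) *
          (if h : (i : ℕ) < m then (if y ⟨i + 1, by omega⟩ = z i then 1 else 0) else 1)) := by
      intro z
      rw [ih z, P, Finset.prod_mul_distrib]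
      have h2 : ∏ i : Fin (m + 1), (if h : (i : ℕ) < m then
          (if y ⟨i + 1, by omega⟩ = z i then (1 : ℝ) else 0) else 1) =
          ∏ i : Fin m, (if y i.succ = z i.castSucc then 1 else 0) := by
        rw [Fin.prod_univ_castSucc]
        simp only [Fin.val_last, lt_irrefl, dite_false, mul_one]
        apply Finset.prod_congr rfl
        intro i _
        rw [dif_pos (show ((i.castSucc : Fin (m + 1)) : ℕ) < m from i.2)]
        rfl
      rw [h2]
      ring
    rw [Finset.sum_congr rfl (fun z _ => h1 z), ← Finset.mul_sum,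
      sum_prod (fun (i : Fin (m + 1)) (b : Bool) => g q (ext x) k i b *
          (if h : (i : ℕ) < m then (if y ⟨i + 1, by omega⟩ = b then 1 else 0) else 1)),
      Fin.prod_univ_castSucc, Fin.prod_univ_succ]
    have h3 : ∑ b, g q (ext x) k (Fin.last m : Fin (m + 1)) b *
        (if h : ((Fin.last m : Fin (m + 1)) : ℕ) < m then
          (if y ⟨(Fin.last m : Fin (m + 1)) + 1, by omega⟩ = b then (1 : ℝ) else 0) else 1) = 1 := by
      simp only [Fin.val_last, lt_irrefl, dite_false, mul_one]
      exact g_sum q _ k m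
    rw [h3, mul_one]
    congr 1
    apply Finset.prod_congr rfl
    intro i _
    rw [Fin.val_succ, g_succ]
    rw [Finset.sum_eq_single (y i.succ)]
    · rw [dif_pos (show ((i.castSucc : Fin (m + 1)) : ℕ) < m from i.2)]
      rw [if_pos (by rfl), mul_one]
      rfl
    · intro b _ hb
      rw [dif_pos (show ((i.castSucc : Fin (m + 1)) : ℕ) < m from i.2), if_neg, mul_zero]
      intro h
      exact hb h.symm
    · intro h; exact absurd (Finset.mem_univ _) h

/-- the product law -/
def pi (m : ℕ) (q : ℝ) (y : Fin (m + 1) → Bool) : ℝ := ∏ i, w q (y i)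

theorem pow_ge (m : ℕ) (q : ℝ) (x y : Fin (m + 1) → Bool) {k : ℕ} (hk : m + 1 ≤ k) :
    (P m q ^ k) x y = pi m q y := by
  rw [pow_apply, pi]
  apply Finset.prod_congr rfl
  intro i _
  have := i.2
  rw [g, if_pos (by omega)]

theorem pi_nonneg {m : ℕ} {q : ℝ} (h0 : 0 ≤ q) (h1 : q ≤ 1) (y : Fin (m + 1) → Bool) :
    0 ≤ pi m q y := Finset.prod_nonneg fun _ _ => w_nonneg h0 h1 _

theorem pi_pos {m : ℕ} {q : ℝ} (h0 : 0 < q) (h1 : q < 1) (y : Fin (m + 1) → Bool) :
    0 < pi m q y := Finset.prod_pos fun _ _ => w_pos h0 h1 _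

theorem pow_nonneg' {m : ℕ} {q : ℝ} (h0 : 0 ≤ q) (h1 : q ≤ 1) (x y : Fin (m + 1) → Bool) (k : ℕ) :
    0 ≤ (P m q ^ k) x y := by
  rw [pow_apply]
  exact Finset.prod_nonneg fun i _ => g_nonneg h0 h1 _ _ _ _

theorem pow_sum (m : ℕ) (q : ℝ) (x : Fin (m + 1) → Bool) (k : ℕ) :
    ∑ y, (P m q ^ k) x y = 1 := by
  rw [Finset.sum_congr rfl (fun y _ => pow_apply m q x k y),
    sum_prod (fun (i : Fin (m + 1)) b => g q (ext x) k i b)]
  exact Finset.prod_eq_one fun i _ => g_sum _ _ _ _

theorem pi_sum (m : ℕ) (q : ℝ) : ∑ y, pi m q y = 1 := by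
  have := pow_sum m q (fun _ => false) (m + 1)
  rwa [Finset.sum_congr rfl (fun y _ => pow_ge m q _ y le_rfl)] at this

theorem pi_zero (m : ℕ) (q : ℝ) : pi m q (fun _ => false) = q ^ (m + 1) := by
  simp [pi, w]

/-- states whose cells from `k` on hold `false` -/
def Bset (m k : ℕ) : Finset (Fin (m + 1) → Bool) :=
  Finset.univ.filter fun y => ∀ i : Fin (m + 1), k ≤ (i : ℕ) → y i = false

theorem pi_B (m : ℕ) (q : ℝ) (k : ℕ) : ∑ y ∈ Bset m k, pi m q y = q ^ (m + 1 - k) := by
  have h1 : ∑ y ∈ Bset m k, pi m q y =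
      ∑ y : Fin (m + 1) → Bool, ∏ i : Fin (m + 1),
        (w q (y i) * if k ≤ (i : ℕ) then (if y i = false then 1 else 0) else 1) := by
    rw [Bset, Finset.sum_filter]
    apply Finset.sum_congr rfl
    intro y _
    rw [Finset.prod_mul_distrib]
    by_cases h : ∀ i : Fin (m + 1), k ≤ (i : ℕ) → y i = false
    · rw [if_pos h, pi]
      rw [Finset.prod_eq_one (f := fun i : Fin (m + 1) =>
        (if k ≤ (i : ℕ) then (if y i = false then (1 : ℝ) else 0) else 1)), mul_one]
      intro i _
      by_cases hi : k ≤ (i : ℕ)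
      · simp [hi, h i hi]
      · simp [hi]
    · rw [if_neg h]
      push Not at h
      obtain ⟨i, hi, hy⟩ := h
      rw [Finset.prod_eq_zero (f := fun i : Fin (m + 1) =>
        (if k ≤ (i : ℕ) then (if y i = false then (1 : ℝ) else 0) else 1)) (Finset.mem_univ i),
        mul_zero]
      simp [hi, hy]
  rw [h1, sum_prod (fun (i : Fin (m + 1)) b =>
    (w q b * if k ≤ (i : ℕ) then (if b = false then 1 else 0) else 1))]
  have h2 : ∀ i : Fin (m + 1), (∑ b, (w q b * if k ≤ (i : ℕ) then (if b = false then 1 else 0)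
      else 1)) = if k ≤ (i : ℕ) then q else 1 := by
    intro i
    by_cases hi : k ≤ (i : ℕ)
    · simp [hi, w]
    · simp [hi, w]
  rw [Finset.prod_congr rfl (fun i _ => h2 i), Finset.prod_ite, Finset.prod_const,
    Finset.prod_const_one, mul_one]
  congr 1
  have h3 := Finset.card_filter_add_card_filter_not (s := (Finset.univ : Finset (Fin (m + 1))))
    (fun i : Fin (m + 1) => (i : ℕ) < k)
  rw [Fin.card_filter_val_lt, Finset.card_univ, Fintype.card_fin] at h3
  simp only [not_lt] at h3
  omega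

/-- distance of the law after `k` steps from the stationary law, started at `0` -/
theorem tv_pow {m : ℕ} {q : ℝ} (h0 : 0 < q) (h1 : q < 1) (k : ℕ) :
    ∑ y, |(P m q ^ k) (fun _ => false) y - pi m q y| = 2 * (1 - q ^ (m + 1 - k)) := by
  have hB : ∀ y ∈ Bset m k, pi m q y ≤ (P m q ^ k) (fun _ => false) y := by
    intro y hy
    rw [Bset, Finset.mem_filter] at hy
    rw [pow_apply, pi]
    apply Finset.prod_le_prod
    · intro i _; exact w_nonneg h0.le h1.le _
    · intro i _
      unfold g
      by_cases hi : (i : ℕ) < k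
      · rw [if_pos hi]
      · rw [if_neg hi, hy.2 i (by omega)]
        have : ext (fun _ : Fin (m + 1) => false) ((i : ℕ) - k) = false := by
          unfold ext; split_ifs <;> rfl
        rw [this, if_pos rfl]
        exact w_le_one h0.le h1.le _
  have hC : ∀ y, y ∉ Bset m k → (P m q ^ k) (fun _ => false) y = 0 := by
    intro y hy
    rw [Bset, Finset.mem_filter] at hy
    push Not at hy
    obtain ⟨i, hi, hyi⟩ := hy (Finset.mem_univ _)
    rw [pow_apply]
    apply Finset.prod_eq_zero (Finset.mem_univ i)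
    have : ext (fun _ : Fin (m + 1) => false) ((i : ℕ) - k) = false := by
      unfold ext; split_ifs <;> rfl
    rw [g, if_neg (by omega), this, if_neg hyi]
  have h2 : ∀ y, |(P m q ^ k) (fun _ => false) y - pi m q y| =
      (P m q ^ k) (fun _ => false) y + pi m q y - 2 * (if y ∈ Bset m k then pi m q y else 0) := by
    intro y
    by_cases hy : y ∈ Bset m k
    · rw [abs_of_nonneg (by linarith [hB y hy]), if_pos hy]; ring
    · rw [hC y hy, if_neg hy, zero_sub, abs_neg, abs_of_nonneg (pi_nonneg h0.le h1.le y)]; ring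
  rw [Finset.sum_congr rfl (fun y _ => h2 y), Finset.sum_sub_distrib, Finset.sum_add_distrib,
    pow_sum, pi_sum, ← Finset.mul_sum, Finset.sum_ite_mem, Finset.univ_inter, pi_B]
  ring

/-- mass of the complement of `Bset m k0` after `k` steps -/
theorem mass_compl {m : ℕ} {q : ℝ} (h0 : 0 < q) (h1 : q < 1) (k k0 : ℕ) :
    ∑ y, (if y ∈ Bset m k0 then 0 else (P m q ^ k) (fun _ => false) y) ≤
      if k ≤ k0 then 0 else 1 := by
  by_cases hk : k ≤ k0
  · rw [if_pos hk]
    apply le_of_eq
    apply Finset.sum_eq_zero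
    intro y _
    by_cases hy : y ∈ Bset m k0
    · rw [if_pos hy]
    · rw [if_neg hy]
      rw [Bset, Finset.mem_filter] at hy
      push Not at hy
      obtain ⟨i, hi, hyi⟩ := hy (Finset.mem_univ _)
      rw [pow_apply]
      apply Finset.prod_eq_zero (Finset.mem_univ i)
      have : ext (fun _ : Fin (m + 1) => false) ((i : ℕ) - k) = false := by
        unfold ext; split_ifs <;> rfl
      rw [g, if_neg (by omega), this, if_neg hyi]
  · rw [if_neg hk, ← pow_sum m q (fun _ => false) k]
    apply Finset.sum_le_sum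
    intro y _
    split_ifs
    · exact pow_nonneg' h0.le h1.le _ _ _
    · exact le_rfl

end

end Pool.Agent.W838.SR
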