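import Mathlib
import Pool.Agent.W838.SR.Core

set_option autoImplicit false

/-!
# The continuous-time shift register: distance to stationarity from the zero state
-/

namespace Pool.Agent.W838.SR

open Finset

noncomputable section

section gen

variable {V : Type} [Fintype V] [DecidableEq V]

set_option backward.isDefEq.respectTransparency false in
theorem hasSum_exp (A : Matrix V V ℝ) :
    HasSum (fun k : ℕ => ((k.factorial : ℝ)⁻¹) • A ^ k) (NormedSpace.exp A) :=
  open scoped Matrix.Norms.Operator in NormedSpace.exp_series_hasSum_exp' (𝕂 := ℝ) A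

theorem hasSum_exp_apply (A : Matrix V V ℝ) (x y : V) :
    HasSum (fun k : ℕ => ((k.factorial : ℝ)⁻¹) * (A ^ k) x y) ((NormedSpace.exp A) x y) :=
  Pi.hasSum.mp (Pi.hasSum.mp (hasSum_exp A) x) y

theorem exp_scalar (c : ℝ) : NormedSpace.exp (c • (1 : Matrix V V ℝ)) = Real.exp c • 1 := by
  rw [← Matrix.diagonal_one, ← Matrix.diagonal_smul, Matrix.exp_diagonal, ← Matrix.diagonal_smul]
  congr 1
  ext i
  rw [Pi.coe_exp]
  simp [Real.exp_eq_exp_ℝ]

/-- Poisson weights -/
def poi (t : ℝ) (k : ℕ) : ℝ := Real.exp (-t) * (t ^ k / k.factorial)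

theorem poi_nonneg {t : ℝ} (ht : 0 ≤ t) (k : ℕ) : 0 ≤ poi t k := by
  unfold poi; positivity

theorem law_hasSum (P : Matrix V V ℝ) (t : ℝ) (x y : V) :
    HasSum (fun k : ℕ => poi t k * (P ^ k) x y) (NormedSpace.exp (t • (P - 1)) x y) := by
  have h1 : t • (P - 1) = (-t) • (1 : Matrix V V ℝ) + t • P := by
    rw [smul_sub, neg_smul, sub_eq_neg_add]
  have h2 : NormedSpace.exp (t • (P - 1)) = Real.exp (-t) • NormedSpace.exp (t • P) := by
    rw [h1, Matrix.exp_add_of_commute, exp_scalar]
    · rw [smul_mul_assoc, one_mul]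
    · exact (Commute.one_left _).smul_left _
  have h := (hasSum_exp_apply (t • P) x y).mul_left (Real.exp (-t))
  rw [h2, Matrix.smul_apply, smul_eq_mul]
  refine h.congr_fun fun k => ?_
  rw [smul_pow, Matrix.smul_apply, smul_eq_mul, poi]
  ring

theorem poi_hasSum (t β : ℝ) :
    HasSum (fun k : ℕ => poi t k * β ^ k) (Real.exp ((β - 1) * t)) := by
  have h := (NormedSpace.expSeries_div_hasSum_exp (𝔸 := ℝ) (β * t)).mul_left (Real.exp (-t))
  rw [← Real.exp_eq_exp_ℝ, ← Real.exp_add] at h
  rw [show (β - 1) * t = -t + β * t by ring]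
  refine h.congr_fun fun k => ?_
  rw [mul_pow, poi]; ring

theorem poi_hasSum_one (t : ℝ) : HasSum (fun k : ℕ => poi t k) 1 := by
  have := poi_hasSum t 1
  simpa using this

end gen

/-- law at time `t` started from the zero state -/
def mu (m : ℕ) (q t : ℝ) (y : Fin (m + 1) → Bool) : ℝ :=
  NormedSpace.exp (t • (P m q - 1)) (fun _ => false) y

theorem mu_hasSum (m : ℕ) (q t : ℝ) (y : Fin (m + 1) → Bool) :
    HasSum (fun k : ℕ => poi t k * (P m q ^ k) (fun _ => false) y) (mu m q t y) :=
  law_hasSum _ _ _ _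

theorem mu_sum (m : ℕ) (q t : ℝ) : ∑ y, mu m q t y = 1 := by
  have h := hasSum_sum (s := (univ : Finset (Fin (m + 1) → Bool))) fun y _ => mu_hasSum m q t y
  have h2 : HasSum (fun k : ℕ => poi t k) (∑ y, mu m q t y) := by
    refine h.congr_fun fun k => ?_
    rw [← Finset.mul_sum, pow_sum, mul_one]
  exact h2.unique (poi_hasSum_one t)

theorem tv_upper {m : ℕ} {q : ℝ} (h0 : 0 < q) (h1 : q < 1) {t c0 c1 β : ℝ} (ht : 0 ≤ t)
    (h : ∀ k, 1 - q ^ (m + 1 - k) ≤ c0 + c1 * β ^ k) :
    (1 / 2 : ℝ) * ∑ y, |mu m q t y - pi m q y| ≤ c0 + c1 * Real.exp ((β - 1) * t) := by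
  have hy : ∀ y, HasSum (fun k : ℕ => poi t k * ((P m q ^ k) (fun _ => false) y - pi m q y))
      (mu m q t y - pi m q y) := by
    intro y
    have h3 := (mu_hasSum m q t y).sub ((poi_hasSum_one t).mul_right (pi m q y))
    rw [one_mul] at h3
    refine h3.congr_fun fun k => ?_
    ring
  have habs : ∀ y, Summable (fun k : ℕ =>
      poi t k * |(P m q ^ k) (fun _ => false) y - pi m q y|) := by
    intro y
    refine Summable.of_nonneg_of_le (fun k => mul_nonneg (poi_nonneg ht k) (abs_nonneg _))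
      (fun k => ?_) ((poi_hasSum_one t).summable.mul_right 2)
    apply mul_le_mul_of_nonneg_left _ (poi_nonneg ht k)
    have h4 := tv_pow (m := m) h0 h1 k
    have h5 : |(P m q ^ k) (fun _ => false) y - pi m q y| ≤
        ∑ y, |(P m q ^ k) (fun _ => false) y - pi m q y| :=
      Finset.single_le_sum (f := fun y => |(P m q ^ k) (fun _ => false) y - pi m q y|)
        (fun _ _ => abs_nonneg _) (Finset.mem_univ y)
    have h6 : 0 ≤ q ^ (m + 1 - k) := by positivity
    linarith
  have hle : ∀ y, |mu m q t y - pi m q y| ≤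
      ∑' k : ℕ, poi t k * |(P m q ^ k) (fun _ => false) y - pi m q y| := by
    intro y
    rw [← (hy y).tsum_eq]
    have h7 := norm_tsum_le_tsum_norm (f := fun k : ℕ =>
      poi t k * ((P m q ^ k) (fun _ => false) y - pi m q y)) (by
        refine (habs y).congr fun k => ?_
        rw [Real.norm_eq_abs, abs_mul, abs_of_nonneg (poi_nonneg ht k)])
    rw [Real.norm_eq_abs] at h7
    refine h7.trans (le_of_eq (tsum_congr fun k => ?_))
    rw [Real.norm_eq_abs, abs_mul, abs_of_nonneg (poi_nonneg ht k)]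
  have hsum : ∑ y, |mu m q t y - pi m q y| ≤
      ∑' k : ℕ, poi t k * (2 * (1 - q ^ (m + 1 - k))) := by
    refine (Finset.sum_le_sum fun y _ => hle y).trans ?_
    rw [← Summable.tsum_finsetSum (fun y _ => habs y)]
    refine le_of_eq (tsum_congr fun k => ?_)
    rw [← Finset.mul_sum, tv_pow h0 h1]
  have hs1 : Summable (fun k : ℕ => poi t k * (2 * (1 - q ^ (m + 1 - k)))) := by
    refine Summable.of_nonneg_of_le (fun k => mul_nonneg (poi_nonneg ht k) ?_)
      (fun k => ?_) ((poi_hasSum_one t).summable.mul_right 2)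
    · have := pow_le_one₀ h0.le h1.le (n := m + 1 - k)
      linarith
    · apply mul_le_mul_of_nonneg_left _ (poi_nonneg ht k)
      have h6 : 0 ≤ q ^ (m + 1 - k) := by positivity
      linarith
  have hs2 : HasSum (fun k : ℕ => 2 * (poi t k * c0 + c1 * (poi t k * β ^ k)))
      (2 * (1 * c0 + c1 * Real.exp ((β - 1) * t))) :=
    (((poi_hasSum_one t).mul_right c0).add ((poi_hasSum t β).mul_left c1)).mul_left 2
  have h8 : ∑' k : ℕ, poi t k * (2 * (1 - q ^ (m + 1 - k))) ≤
      2 * (1 * c0 + c1 * Real.exp ((β - 1) * t)) := by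
    rw [← hs2.tsum_eq]
    refine Summable.tsum_le_tsum (fun k => ?_) hs1 hs2.summable
    have := mul_le_mul_of_nonneg_left (h k) (poi_nonneg ht k)
    nlinarith
  linarith

theorem tv_lower {m : ℕ} {q : ℝ} (h0 : 0 < q) (h1 : q < 1) {t : ℝ} (ht : 0 ≤ t) (k0 : ℕ) :
    1 - q ^ (m + 1 - k0) - Real.exp ((Real.exp 1 - 1) * t - k0) ≤
      (1 / 2 : ℝ) * ∑ y, |mu m q t y - pi m q y| := by
  -- mass outside
  have hA : ∑ y, (if y ∈ Bset m k0 then 0 else mu m q t y) ≤
      Real.exp ((Real.exp 1 - 1) * t - k0) := by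
    have hs : HasSum (fun k : ℕ => poi t k *
        ∑ y, (if y ∈ Bset m k0 then 0 else (P m q ^ k) (fun _ => false) y))
        (∑ y, (if y ∈ Bset m k0 then 0 else mu m q t y)) := by
      have h0' : ∀ y, HasSum (fun k : ℕ => if y ∈ Bset m k0 then 0 else
          poi t k * (P m q ^ k) (fun _ => false) y) (if y ∈ Bset m k0 then 0 else mu m q t y) := by
        intro y
        by_cases hy : y ∈ Bset m k0
        · simp only [hy, if_true]; exact hasSum_zero
        · simp only [hy, if_false]; exact mu_hasSum m q t y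
      have h : HasSum (fun k : ℕ => ∑ y, if y ∈ Bset m k0 then 0 else
          poi t k * (P m q ^ k) (fun _ => false) y)
          (∑ y, if y ∈ Bset m k0 then 0 else mu m q t y) := hasSum_sum (fun y _ => h0' y)
      refine h.congr_fun fun k => ?_
      rw [Finset.mul_sum]
      refine Finset.sum_congr rfl fun y _ => ?_
      split_ifs
      · rw [mul_zero]
      · rfl
    have hs2 : HasSum (fun k : ℕ => Real.exp (-(k0 : ℝ)) * (poi t k * (Real.exp 1) ^ k))
        (Real.exp (-(k0 : ℝ)) * Real.exp ((Real.exp 1 - 1) * t)) :=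
      (poi_hasSum t (Real.exp 1)).mul_left _
    have h9 := hasSum_le (fun k => ?_) hs hs2
    · refine h9.trans (le_of_eq ?_)
      rw [← Real.exp_add]
      congr 1
      ring
    · refine (mul_le_mul_of_nonneg_left (mass_compl h0 h1 k k0) (poi_nonneg ht k)).trans ?_
      by_cases hk : k ≤ k0
      · rw [if_pos hk, mul_zero]
        have := poi_nonneg ht k
        positivity
      · rw [if_neg hk, mul_one, ← Real.exp_nat_mul, mul_one]
        have h10 : 1 ≤ Real.exp (-(k0 : ℝ)) * Real.exp (k : ℝ) := by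
          rw [← Real.exp_add]
          apply Real.one_le_exp
          have : (k0 : ℝ) ≤ k := by exact_mod_cast (by omega : k0 ≤ k)
          linarith
        have := poi_nonneg ht k
        nlinarith
  have hpi : ∑ y, (if y ∈ Bset m k0 then 0 else pi m q y) = 1 - q ^ (m + 1 - k0) := by
    have h2 : ∀ y, (if y ∈ Bset m k0 then 0 else pi m q y) =
        pi m q y - (if y ∈ Bset m k0 then pi m q y else 0) := by
      intro y; split_ifs <;> ring
    rw [Finset.sum_congr rfl (fun y _ => h2 y), Finset.sum_sub_distrib, pi_sum,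
      Finset.sum_ite_mem, Finset.univ_inter, pi_B]
  have hsplit : ∑ y, |mu m q t y - pi m q y| ≥
      ∑ y, ((if y ∈ Bset m k0 then 0 else pi m q y) - (if y ∈ Bset m k0 then 0 else mu m q t y)
       + ((mu m q t y - pi m q y) - ((if y ∈ Bset m k0 then 0 else mu m q t y) -
        (if y ∈ Bset m k0 then 0 else pi m q y)))) := by
    apply Finset.sum_le_sum
    intro y _
    split_ifs
    · have := le_abs_self (mu m q t y - pi m q y); linarith
    · have := neg_abs_le (mu m q t y - pi m q y); linarith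
  rw [Finset.sum_add_distrib, Finset.sum_sub_distrib, Finset.sum_sub_distrib,
    Finset.sum_sub_distrib, Finset.sum_sub_distrib, mu_sum, pi_sum, hpi] at hsplit
  linarith

end

end Pool.Agent.W838.SR
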