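import Mathlib
import Pool.Agent.W838.SR.Heat

set_option autoImplicit false

/-!
# Estimates for the shift register with `4 u ^ 2 + 2 u` cells
-/

namespace Pool.Agent.W838.SR

open Finset Filter Topology

noncomputable section

/-- the probability of `false` -/
def qq (u : ℕ) : ℝ := (3 / 4 : ℝ) ^ (((4 * u ^ 2 : ℕ) : ℝ)⁻¹)

theorem qq_pow {u : ℕ} (hu : 0 < u) : qq u ^ (4 * u ^ 2) = 3 / 4 := by
  unfold qq
  exact Real.rpow_inv_natCast_pow (by norm_num) (by positivity)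

theorem qq_pos (u : ℕ) : 0 < qq u := by unfold qq; positivity

theorem qq_lt {u : ℕ} (hu : 0 < u) : qq u < 1 := by
  by_contra h
  push Not at h
  have := one_le_pow₀ h (n := 4 * u ^ 2)
  rw [qq_pow hu] at this
  norm_num at this

theorem qq_u {u : ℕ} (hu : 0 < u) : qq u ^ u ≤ 1 - 1 / (16 * u) := by
  have hu' : (1 : ℝ) ≤ u := by exact_mod_cast hu
  by_contra h
  push Not at h
  have h1 : 0 ≤ 1 - 1 / (16 * (u : ℝ)) := by
    have : 1 / (16 * (u : ℝ)) ≤ 1 := by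
      rw [div_le_one (by positivity)]; linarith
    linarith
  have h2 := pow_lt_pow_left₀ h h1 (n := 4 * u) (by omega)
  have h3 : (qq u ^ u) ^ (4 * u) = 3 / 4 := by
    rw [← pow_mul, show u * (4 * u) = 4 * u ^ 2 by ring, qq_pow hu]
  rw [h3] at h2
  have h4 := one_add_mul_le_pow (a := -(1 / (16 * (u : ℝ)))) (by linarith) (4 * u)
  have h5 : (1 : ℝ) + ((4 * u : ℕ) : ℝ) * -(1 / (16 * (u : ℝ))) = 3 / 4 := by
    push_cast
    field_simp
    norm_num
  rw [h5] at h4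
  have : (1 + -(1 / (16 * (u : ℝ)))) = 1 - 1 / (16 * (u : ℝ)) := by ring
  rw [this] at h4
  linarith

theorem qq_2u {u : ℕ} (hu : 0 < u) : qq u ^ (2 * u) ≤ 1 - 1 / (8 * u) := by
  have hu' : (1 : ℝ) ≤ u := by exact_mod_cast hu
  by_contra h
  push Not at h
  have h1 : 0 ≤ 1 - 1 / (8 * (u : ℝ)) := by
    have : 1 / (8 * (u : ℝ)) ≤ 1 := by
      rw [div_le_one (by positivity)]; linarith
    linarith
  have h2 := pow_lt_pow_left₀ h h1 (n := 2 * u) (by omega)
  have h3 : (qq u ^ (2 * u)) ^ (2 * u) = 3 / 4 := by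
    rw [← pow_mul, show 2 * u * (2 * u) = 4 * u ^ 2 by ring, qq_pow hu]
  rw [h3] at h2
  have h4 := one_add_mul_le_pow (a := -(1 / (8 * (u : ℝ)))) (by linarith) (2 * u)
  have h5 : (1 : ℝ) + ((2 * u : ℕ) : ℝ) * -(1 / (8 * (u : ℝ))) = 3 / 4 := by
    push_cast
    field_simp
    norm_num
  rw [h5] at h4
  have : (1 + -(1 / (8 * (u : ℝ)))) = 1 - 1 / (8 * (u : ℝ)) := by ring
  rw [this] at h4
  linarith

theorem qq_2u_ge {u : ℕ} (hu : 0 < u) : 3 / 4 ≤ qq u ^ (2 * u) := by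
  have h3 : (qq u ^ (2 * u)) ^ (2 * u) = 3 / 4 := by
    rw [← pow_mul, show 2 * u * (2 * u) = 4 * u ^ 2 by ring, qq_pow hu]
  rw [← h3]
  apply pow_le_of_le_one (by have := qq_pos u; positivity) _ (by omega)
  exact pow_le_one₀ (qq_pos u).le (qq_lt hu).le

theorem qq_u_ge {u : ℕ} (hu : 0 < u) : 1 - 1 / (4 * u) ≤ qq u ^ u := by
  have hu' : (1 : ℝ) ≤ u := by exact_mod_cast hu
  by_contra h
  push Not at h
  have h2 := pow_lt_pow_left₀ h (by have := qq_pos u; positivity) (n := 4 * u) (by omega)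
  have h3 : (qq u ^ u) ^ (4 * u) = 3 / 4 := by
    rw [← pow_mul, show u * (4 * u) = 4 * u ^ 2 by ring, qq_pow hu]
  rw [h3] at h2
  have h4 : (1 - 1 / (4 * (u : ℝ))) ^ (4 * u) ≤ Real.exp (-1) := by
    have h5 : 1 - 1 / (4 * (u : ℝ)) ≤ Real.exp (-(1 / (4 * (u : ℝ)))) := by
      have := Real.add_one_le_exp (-(1 / (4 * (u : ℝ))))
      linarith
    have h6 : 0 ≤ 1 - 1 / (4 * (u : ℝ)) := by
      have : 1 / (4 * (u : ℝ)) ≤ 1 := by
        rw [div_le_one (by positivity)]; linarith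
      linarith
    refine (pow_le_pow_left₀ h6 h5 _).trans (le_of_eq ?_)
    rw [← Real.exp_nat_mul]
    congr 1
    push_cast
    field_simp
  have h7 : Real.exp (-1) < 0.37 := by
    rw [Real.exp_neg]
    have := Real.exp_one_gt_d9
    rw [inv_lt_comm₀ (Real.exp_pos 1) (by norm_num)]
    norm_num
    linarith
  linarith

/-- number of cells minus one -/
def mm (u : ℕ) : ℕ := 4 * u ^ 2 + 2 * u - 1

theorem mm_add {u : ℕ} (hu : 0 < u) : mm u + 1 = 4 * u ^ 2 + 2 * u := by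
  unfold mm; omega

/-- distance to stationarity from the zero state -/
def dd (u : ℕ) (t : ℝ) : ℝ :=
  (1 / 2 : ℝ) * ∑ y, |mu (mm u) (qq u) t y - pi (mm u) (qq u) y|

theorem exp_neg_bound {x : ℝ} (hx : 0 < x) : Real.exp (-x) ≤ 2 / x ^ 2 := by
  have h1 := Real.quadratic_le_exp_of_nonneg hx.le
  rw [Real.exp_neg, ← one_div, div_le_div_iff₀ (Real.exp_pos x) (by positivity)]
  nlinarith

theorem dd_low {u : ℕ} (hu : 200 ≤ u) {t : ℝ} (ht : 0 ≤ t) (htu : t ≤ u / 4) :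
    1 / 4 < dd u t := by
  have hu0 : 0 < u := by omega
  have hu' : (200 : ℝ) ≤ u := by exact_mod_cast hu
  have h : 1 - qq u ^ (mm u + 1 - u) - Real.exp ((Real.exp 1 - 1) * t - u) ≤ dd u t :=
    tv_lower (m := mm u) (qq_pos u) (qq_lt hu0) ht u
  rw [mm_add hu0, show 4 * u ^ 2 + 2 * u - u = 4 * u ^ 2 + u by omega, pow_add, qq_pow hu0] at h
  have h1 := qq_u hu0
  have h2 : Real.exp ((Real.exp 1 - 1) * t - u) ≤ 8 / u ^ 2 := by
    have h3 : (Real.exp 1 - 1) * t - u ≤ -((u : ℝ) / 2) := by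
      have h4 := Real.exp_one_lt_d9
      have h5 : (Real.exp 1 - 1) * t ≤ 2 * t := by nlinarith
      linarith
    refine (Real.exp_le_exp.mpr h3).trans ((exp_neg_bound (by positivity)).trans (le_of_eq ?_))
    field_simp
    norm_num
  have h6 : (8 : ℝ) / u ^ 2 < 3 / 4 * (1 / (16 * u)) := by
    rw [show (3 : ℝ) / 4 * (1 / (16 * u)) = 3 / (64 * u) by field_simp; norm_num,
      div_lt_div_iff₀ (by positivity) (by positivity)]
    nlinarith
  nlinarith

theorem dd_up {u : ℕ} (hu : 200 ≤ u) : dd u (8 * u) ≤ 1 / 4 := by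
  have hu0 : 0 < u := by omega
  have hu' : (200 : ℝ) ≤ u := by exact_mod_cast hu
  have hq0 := qq_pos u
  have hq1 := qq_lt hu0
  have h : dd u (8 * u) ≤ 1 - qq u ^ (mm u + 1 - 4 * u) +
      Real.exp (4 * u) * Real.exp ((Real.exp (-1) - 1) * (8 * u)) :=
    tv_upper (m := mm u) (t := 8 * u) (c0 := 1 - qq u ^ (mm u + 1 - 4 * u))
    (c1 := Real.exp (4 * u)) (β := Real.exp (-1)) hq0 hq1 (by positivity) (by
      intro k
      have h1 : 0 ≤ Real.exp (4 * (u : ℝ)) * Real.exp (-1) ^ k := by positivity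
      by_cases hk : 4 * u ≤ k
      · have h2 : qq u ^ (mm u + 1 - 4 * u) ≤ qq u ^ (mm u + 1 - k) :=
          pow_le_pow_of_le_one hq0.le hq1.le (by omega)
        linarith
      · have h3 : 1 ≤ Real.exp (4 * (u : ℝ)) * Real.exp (-1) ^ k := by
          rw [← Real.exp_nat_mul, ← Real.exp_add]
          apply Real.one_le_exp
          have : (k : ℝ) ≤ 4 * u := by exact_mod_cast (by omega : k ≤ 4 * u)
          linarith
        have h4 : 0 ≤ qq u ^ (mm u + 1 - k) := by positivity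
        have h5 := pow_le_one₀ hq0.le hq1.le (n := mm u + 1 - 4 * u)
        linarith)
  have h6 : Real.exp (4 * (u : ℝ)) * Real.exp ((Real.exp (-1) - 1) * (8 * u)) ≤ 2 / u ^ 2 := by
    rw [← Real.exp_add]
    have h7 : Real.exp (-1) < 0.37 := by
      rw [Real.exp_neg]
      have := Real.exp_one_gt_d9
      rw [inv_lt_comm₀ (Real.exp_pos 1) (by norm_num)]
      norm_num
      linarith
    have h8 : 4 * (u : ℝ) + (Real.exp (-1) - 1) * (8 * u) ≤ -u := by nlinarith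
    exact (Real.exp_le_exp.mpr h8).trans (exp_neg_bound (by positivity))
  rw [mm_add hu0, show 4 * u ^ 2 + 2 * u - 4 * u = 4 * u ^ 2 - 2 * u by omega] at h
  have h9 : qq u ^ (4 * u ^ 2 - 2 * u) * qq u ^ (2 * u) = 3 / 4 := by
    rw [← pow_add, Nat.sub_add_cancel (by nlinarith), qq_pow hu0]
  have h10 := qq_2u hu0
  have h11 : 3 / 4 * (1 + 1 / (8 * (u : ℝ))) ≤ qq u ^ (4 * u ^ 2 - 2 * u) := by
    have h12 : 0 < qq u ^ (4 * u ^ 2 - 2 * u) := by positivity
    have h13 : 0 < 1 / (8 * (u : ℝ)) := by positivity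
    have h14 : 3 / 4 ≤ qq u ^ (4 * u ^ 2 - 2 * u) * (1 - 1 / (8 * u)) := by
      rw [← h9]
      exact mul_le_mul_of_nonneg_left h10 h12.le
    have h15 : 1 / (8 * (u : ℝ)) ≤ 1 / 1600 := by
      apply one_div_le_one_div_of_le (by norm_num); linarith
    nlinarith
  have h16 : (2 : ℝ) / u ^ 2 ≤ 3 / 4 * (1 / (8 * u)) := by
    rw [show (3 : ℝ) / 4 * (1 / (8 * u)) = 3 / (32 * u) by field_simp; norm_num,
      div_le_div_iff₀ (by positivity) (by positivity)]
    nlinarith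
  linarith

theorem dd_le {u : ℕ} (hu : 0 < u) {t : ℝ} (ht : 0 ≤ t) : dd u t ≤ 7 / 16 := by
  have hq0 := qq_pos u
  have hq1 := qq_lt hu
  have h : dd u t ≤ 1 - qq u ^ (mm u + 1) + 0 * Real.exp ((1 - 1) * t) :=
    tv_upper (m := mm u) (t := t) (c0 := 1 - qq u ^ (mm u + 1))
    (c1 := 0) (β := 1) hq0 hq1 ht (by
      intro k
      have h2 : qq u ^ (mm u + 1) ≤ qq u ^ (mm u + 1 - k) :=
          pow_le_pow_of_le_one hq0.le hq1.le (by omega)
      linarith)
  rw [mm_add hu, pow_add, qq_pow hu] at h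
  have := qq_2u_ge hu
  linarith

theorem pi_zero_ge {u : ℕ} (hu : 0 < u) : 9 / 16 ≤ pi (mm u) (qq u) (fun _ => false) := by
  rw [pi_zero, mm_add hu, pow_add, qq_pow hu]
  have := qq_2u_ge hu
  linarith

theorem dd_ge {u K : ℕ} (hu : 0 < u) (hK : K ≤ 4 * u) {t : ℝ} (ht : 0 ≤ t)
    (htK : 2 * t + u ≤ K * u) :
    1 - (3 / 4) / (qq u ^ u) ^ K - Real.exp (-u) ≤ dd u t := by
  have hq0 := qq_pos u
  have h := tv_lower (m := mm u) hq0 (qq_lt hu) ht (K * u)
  have h1 : Real.exp ((Real.exp 1 - 1) * t - (K * u : ℕ)) ≤ Real.exp (-u) := by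
    apply Real.exp_le_exp.mpr
    have h4 := Real.exp_one_lt_d9
    push_cast
    nlinarith
  have h2 : qq u ^ (mm u + 1 - K * u) ≤ (3 / 4) / (qq u ^ u) ^ K := by
    rw [le_div_iff₀ (by positivity), ← pow_mul, ← pow_add]
    have h5 : mm u + 1 - K * u + u * K = 4 * u ^ 2 + 2 * u := by
      rw [mm_add hu, mul_comm u K]
      apply Nat.sub_add_cancel
      nlinarith
    rw [h5, pow_add, qq_pow hu]
    have := pow_le_one₀ hq0.le (qq_lt hu).le (n := 2 * u)
    linarith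
  unfold dd
  linarith

theorem qq_u_tendsto : Tendsto (fun n : ℕ => qq (n + 200) ^ (n + 200)) atTop (𝓝 1) := by
  have h1 : Tendsto (fun n : ℕ => 1 - 1 / (4 * ((n + 200 : ℕ) : ℝ))) atTop (𝓝 (1 - 0)) := by
    apply Tendsto.sub tendsto_const_nhds
    have h2 : Tendsto (fun n : ℕ => 4 * ((n + 200 : ℕ) : ℝ)) atTop atTop := by
      apply Tendsto.const_mul_atTop (by norm_num)
      exact tendsto_natCast_atTop_atTop.comp (tendsto_add_atTop_nat 200)
    have h3 := h2.inv_tendsto_atTop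
    refine h3.congr fun n => ?_
    rw [Pi.inv_apply, one_div]
  rw [sub_zero] at h1
  refine tendsto_of_tendsto_of_tendsto_of_le_of_le h1 tendsto_const_nhds (fun n => ?_) (fun n => ?_)
  · exact qq_u_ge (by omega)
  · exact pow_le_one₀ (qq_pos _).le (qq_lt (by omega)).le

/-- for every `b` and `ε < 1 / 4` the distance at times up to `8 b u` eventually exceeds `ε` -/
theorem dd_eventually {b ε : ℝ} (hb : 0 ≤ b) (hε : ε < 1 / 4) :
    ∀ᶠ n : ℕ in atTop, ∀ t : ℝ, 0 ≤ t → t ≤ b * (8 * ((n + 200 : ℕ) : ℝ)) → ε < dd (n + 200) t := by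
  obtain ⟨K, hK⟩ := exists_nat_ge (16 * b + 1)
  have h1 : Tendsto (fun n : ℕ => 1 - (3 / 4) / (qq (n + 200) ^ (n + 200)) ^ K
      - Real.exp (-((n + 200 : ℕ) : ℝ))) atTop (𝓝 (1 - (3 / 4) / 1 ^ K - 0)) := by
    apply Tendsto.sub
    · apply Tendsto.sub tendsto_const_nhds
      apply Tendsto.div tendsto_const_nhds (qq_u_tendsto.pow K)
      simp
    · exact Real.tendsto_exp_neg_atTop_nhds_zero.comp
        (tendsto_natCast_atTop_atTop.comp (tendsto_add_atTop_nat 200))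
  have h2 : (1 - (3 / 4 : ℝ) / 1 ^ K - 0) = 1 / 4 := by norm_num
  rw [h2] at h1
  filter_upwards [h1.eventually (lt_mem_nhds hε), eventually_ge_atTop K] with n h3 h4 t ht htb
  refine h3.trans_le (dd_ge (by omega) (by omega) ht ?_)
  have h5 : (0 : ℝ) ≤ ((n + 200 : ℕ) : ℝ) := by positivity
  nlinarith

end

end Pool.Agent.W838.SR
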